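import Mathlib

/-!
# A simple planar digraph with star dichromatic number two

The digraph has the vertices `0, …, 5` and the arcs `0 → 1, 0 → 2`, `3 → 0, 4 → 0, 5 → 0`,
`1 → 3, 1 → 4, 2 → 4, 2 → 5` and the directed triangle `3 → 5 → 4 → 3`. It is an orientation of
`K₄` (on `0, 3, 4, 5`) with two more vertices put in two of its faces.

If `k < 2 d` then for an acyclic `(k, d)`-colouring the vertex `0` lies in two windows of length `d`
which together cover all colours. As `0 → 1 → 3 → 0`, `0 → 1 → 4 → 0`, `0 → 2 → 4 → 0` and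
`0 → 2 → 5 → 0` are directed cycles, the vertices `3, 4, 5` lie in the same window, but they form a
directed cycle.
-/

set_option autoImplicit false

namespace Pool.Agent.Results.MP_45899d_co.SixVertices

/-- The arc relation of a simple digraph: no loops and no pair of opposite arcs. -/
def IsSimple {V : Type} (D : V → V → Prop) : Prop :=
  (∀ u, ¬ D u u) ∧ ∀ u v, D u v → ¬ D v u

/-- The underlying graph has a straight-line drawing in the plane without crossings: distinct
vertices are distinct points, and two distinct edges have only the points of their common end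
vertices in common; no vertex lies on an edge which does not end in it. -/
def IsPlanar {V : Type} (D : V → V → Prop) : Prop :=
  ∃ p : V → ℝ × ℝ, Function.Injective p ∧
    (∀ u v w, (D u v ∨ D v u) → w ≠ u → w ≠ v → p w ∉ segment ℝ (p u) (p v)) ∧
    ∀ u v x y, (D u v ∨ D v u) → (D x y ∨ D y x) → ({u, v} : Set V) ≠ {x, y} →
      segment ℝ (p u) (p v) ∩ segment ℝ (p x) (p y) ⊆ p '' (({u, v} : Set V) ∩ {x, y})

/-- No vertex of `S` can be reached from itself by a nonempty directed walk inside `S`. -/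
def IsAcyclic {V : Type} (D : V → V → Prop) (S : Set V) : Prop :=
  ∀ v, ¬ Relation.TransGen (fun a b => a ∈ S ∧ b ∈ S ∧ D a b) v v

/-- Acyclic `(k, d)`-colourings. -/
def IsAcyclicColouring {V : Type} (D : V → V → Prop) (k d : ℕ) (c : V → ZMod k) : Prop :=
  ∀ i : ZMod k, IsAcyclic D {v | ∃ j : ℕ, j < d ∧ c v = i + (j : ZMod k)}

/-- `q` is the star dichromatic number: the least value `k / d` for which there is an acyclic
`(k, d)`-colouring. -/
def IsStarDichromaticNumber {V : Type} (D : V → V → Prop) (q : ℚ) : Prop :=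
  IsLeast {r : ℚ | ∃ k d : ℕ, 1 ≤ d ∧ d ≤ k ∧ r = (k : ℚ) / d ∧
    ∃ c : V → ZMod k, IsAcyclicColouring D k d c} q

/-- The arcs of the example. -/
def arcs : List (Fin 6 × Fin 6) :=
  [(0, 1), (0, 2), (1, 3), (1, 4), (2, 4), (2, 5), (3, 0), (3, 5), (4, 0), (4, 3), (5, 0), (5, 4)]

/-- The example. -/
def D (u v : Fin 6) : Prop := (u, v) ∈ arcs

instance (u v : Fin 6) : Decidable (D u v) := by
  unfold D
  infer_instance

/-- Integer coordinates of the vertices. -/
def P : Fin 6 → ℤ × ℤ := ![(0, 0), (11, 2), (2, 11), (27, 0), (6, 6), (0, 27)]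

/-- Real coordinates. -/
def pt (u : Fin 6) : ℝ × ℝ := ((P u).1, (P u).2)

/-- The orientation determinant. -/
def det (a b c : ℝ × ℝ) : ℝ := (b.1 - a.1) * (c.2 - a.2) - (b.2 - a.2) * (c.1 - a.1)

/-- The orientation determinant in the integers. -/
def detZ (a b c : Fin 6) : ℤ :=
  ((P b).1 - (P a).1) * ((P c).2 - (P a).2) - ((P b).2 - (P a).2) * ((P c).1 - (P a).1)

theorem det_pt (a b c : Fin 6) : det (pt a) (pt b) (pt c) = (detZ a b c : ℝ) := by
  unfold det detZ pt
  push_cast
  ring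

theorem det_seg {a b c d z : ℝ × ℝ} (hz : z ∈ segment ℝ c d) :
    ∃ s t : ℝ, 0 ≤ s ∧ 0 ≤ t ∧ s + t = 1 ∧ z = s • c + t • d ∧
      det a b z = s * det a b c + t * det a b d := by
  obtain ⟨s, t, hs, ht, hst, rfl⟩ := hz
  refine ⟨s, t, hs, ht, hst, rfl, ?_⟩
  have h : s = 1 - t := by linarith
  subst h
  simp only [det, Prod.fst_add, Prod.snd_add, Prod.smul_fst, Prod.smul_snd, smul_eq_mul]
  ring

theorem det_self {a b z : ℝ × ℝ} (hz : z ∈ segment ℝ a b) : det a b z = 0 := by
  obtain ⟨s, t, _, _, _, _, h⟩ := det_seg (a := a) (b := b) hz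
  rw [h]
  simp only [det]
  ring

theorem disj {a b c d z : ℝ × ℝ} (h : 0 < det a b c * det a b d) (h1 : z ∈ segment ℝ a b)
    (h2 : z ∈ segment ℝ c d) : False := by
  obtain ⟨s, t, hs, ht, hst, _, hz⟩ := det_seg (a := a) (b := b) h2
  rw [det_self h1] at hz
  rcases pos_and_pos_or_neg_and_neg_of_mul_pos h with ⟨hc, hd⟩ | ⟨hc, hd⟩
  · nlinarith [mul_nonneg hs hc.le, mul_nonneg ht hd.le, mul_pos hc hd]
  · nlinarith [mul_nonneg hs (neg_pos.mpr hc).le, mul_nonneg ht (neg_pos.mpr hd).le]

theorem common {a b d z : ℝ × ℝ} (h : det a b d ≠ 0) (h1 : z ∈ segment ℝ a b)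
    (h2 : z ∈ segment ℝ a d) : z = a := by
  obtain ⟨s, t, hs, ht, hst, hz, hd⟩ := det_seg (a := a) (b := b) h2
  rw [det_self h1] at hd
  have ha : det a b a = 0 := by simp only [det]; ring
  rw [ha, mul_zero, zero_add] at hd
  have ht0 : t = 0 := by
    rcases mul_eq_zero.mp hd.symm with h3 | h3
    · exact h3
    · exact absurd h3 h
  have hs1 : s = 1 := by linarith
  rw [hz, ht0, hs1]
  simp

theorem check : ∀ u v x y : Fin 6, (D u v ∨ D v u) → (D x y ∨ D y x) →
    (u = x → v ≠ y → detZ u v y ≠ 0) ∧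
    (u ≠ x → u ≠ y → v ≠ x → v ≠ y →
      0 < detZ u v x * detZ u v y ∨ 0 < detZ x y u * detZ x y v) := by
  decide +kernel

theorem check' : ∀ u v w : Fin 6, (D u v ∨ D v u) → w ≠ u → w ≠ v → detZ u v w ≠ 0 := by
  decide +kernel

theorem planar : IsPlanar D := by
  refine ⟨pt, ?_, ?_, ?_⟩
  · intro u v h
    have h1 : P u = P v := by
      unfold pt at h
      rw [Prod.mk.injEq] at h
      exact Prod.ext (by exact_mod_cast h.1) (by exact_mod_cast h.2)
    revert h1
    revert u v
    have : Function.Injective P := by decide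
    intro u v _ h1
    exact this h1
  · intro u v w huv hwu hwv hw
    have h1 := det_self hw
    rw [det_pt] at h1
    exact check' u v w huv hwu hwv (by exact_mod_cast h1)
  · have key : ∀ u v x y : Fin 6, (D u v ∨ D v u) → (D x y ∨ D y x) → u = x → v ≠ y →
        ∀ z ∈ segment ℝ (pt u) (pt v) ∩ segment ℝ (pt x) (pt y), z = pt u := by
      rintro u v x y huv hxy rfl hvy z ⟨hz1, hz2⟩
      refine common ?_ hz1 hz2
      rw [det_pt]
      exact_mod_cast (check u v u y huv hxy).1 rfl hvy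
    intro u v x y huv hxy hne z hz
    obtain ⟨hz1, hz2⟩ := hz
    have hz1' : z ∈ segment ℝ (pt v) (pt u) := by rw [segment_symm]; exact hz1
    have hz2' : z ∈ segment ℝ (pt y) (pt x) := by rw [segment_symm]; exact hz2
    by_cases h1 : u = x
    · have hvy : v ≠ y := by
        rintro rfl
        exact hne (by rw [h1])
      exact ⟨u, ⟨Or.inl rfl, Or.inl h1⟩, (key u v x y huv hxy h1 hvy z ⟨hz1, hz2⟩).symm⟩
    · by_cases h2 : u = y
      · have hvx : v ≠ x := by
          rintro rfl
          exact hne (by rw [h2, Set.pair_comm])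
        exact ⟨u, ⟨Or.inl rfl, Or.inr h2⟩,
          (key u v y x huv hxy.symm h2 hvx z ⟨hz1, hz2'⟩).symm⟩
      · by_cases h3 : v = x
        · exact ⟨v, ⟨Or.inr rfl, Or.inl h3⟩,
            (key v u x y huv.symm hxy h3 h2 z ⟨hz1', hz2⟩).symm⟩
        · by_cases h4 : v = y
          · exact ⟨v, ⟨Or.inr rfl, Or.inr h4⟩,
              (key v u y x huv.symm hxy.symm h4 h1 z ⟨hz1', hz2'⟩).symm⟩
          · exfalso
            rcases (check u v x y huv hxy).2 h1 h2 h3 h4 with h | h
            · refine disj ?_ hz1 hz2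
              rw [det_pt, det_pt]
              exact_mod_cast h
            · refine disj ?_ hz2 hz1
              rw [det_pt, det_pt]
              exact_mod_cast h

theorem acyclic_of_rank {V : Type} {D : V → V → Prop} {S : Set V} (r : V → ℕ)
    (h : ∀ a b, a ∈ S → b ∈ S → D a b → r a < r b) : IsAcyclic D S := by
  intro v hv
  have key : ∀ a b, Relation.TransGen (fun a b => a ∈ S ∧ b ∈ S ∧ D a b) a b → r a < r b := by
    intro a b hab
    induction hab with
    | single h1 => exact h _ _ h1.1 h1.2.1 h1.2.2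
    | tail _ h1 ih => exact ih.trans (h _ _ h1.1 h1.2.1 h1.2.2)
  exact lt_irrefl _ (key v v hv)

theorem not_acyclic_triangle {S : Set (Fin 6)} {a b c : Fin 6} (hS : IsAcyclic D S) (ha : a ∈ S)
    (hb : b ∈ S) (hc : c ∈ S) (h1 : D a b) (h2 : D b c) (h3 : D c a) : False := by
  refine hS a ?_
  exact ((Relation.TransGen.single ⟨ha, hb, h1⟩).tail ⟨hb, hc, h2⟩).tail ⟨hc, ha, h3⟩

/-- There is a finite simple planar digraph whose star dichromatic number is two. -/
theorem result : ∃ (V : Type) (_ : Finite V) (D : V → V → Prop),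
    IsSimple D ∧ IsPlanar D ∧ IsStarDichromaticNumber D 2 := by
  refine ⟨Fin 6, inferInstance, D, ⟨by decide, by decide⟩, planar, ?_, ?_⟩
  · refine ⟨2, 1, le_rfl, by norm_num, by norm_num, ![0, 1, 1, 0, 0, 1], ?_⟩
    intro i
    refine acyclic_of_rank ![2, 0, 0, 1, 0, 1] ?_
    rintro a b ⟨j, hj, ha⟩ ⟨j', hj', hb⟩ hab
    have hj0 : j = 0 := by omega
    have hj0' : j' = 0 := by omega
    subst hj0
    subst hj0'
    have hc : (![0, 1, 1, 0, 0, 1] : Fin 6 → ZMod 2) a =
        (![0, 1, 1, 0, 0, 1] : Fin 6 → ZMod 2) b := by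
      rw [ha, hb]
    have key : ∀ a b : Fin 6, D a b → (![0, 1, 1, 0, 0, 1] : Fin 6 → ZMod 2) a =
        (![0, 1, 1, 0, 0, 1] : Fin 6 → ZMod 2) b →
        (![2, 0, 0, 1, 0, 1] : Fin 6 → ℕ) a < (![2, 0, 0, 1, 0, 1] : Fin 6 → ℕ) b := by
      decide
    exact key a b hab hc
  · rintro r ⟨k, d, hd, hdk, rfl, c, hc⟩
    by_contra hlt
    have hkd : k < 2 * d := by
      have hd' : (0 : ℚ) < d := by exact_mod_cast hd
      rw [not_le, div_lt_iff₀ hd'] at hlt
      exact_mod_cast hlt
    have : NeZero k := ⟨by omega⟩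
    set A : Set (Fin 6) := {v | ∃ j : ℕ, j < d ∧ c v = c 0 + (j : ZMod k)} with hA
    set B : Set (Fin 6) :=
      {v | ∃ j : ℕ, j < d ∧ c v = (c 0 - ((d - 1 : ℕ) : ZMod k)) + (j : ZMod k)} with hB
    have hcA : IsAcyclic D A := hc (c 0)
    have hcB : IsAcyclic D B := hc (c 0 - ((d - 1 : ℕ) : ZMod k))
    have hA0 : (0 : Fin 6) ∈ A := ⟨0, by omega, by simp⟩
    have hB0 : (0 : Fin 6) ∈ B := ⟨d - 1, by omega, by simp⟩
    have hAB : ∀ v, v ∈ A ∨ v ∈ B := by
      intro v
      have hr : ((c v - c 0).val : ZMod k) = c v - c 0 := ZMod.natCast_zmod_val _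
      have hrk : (c v - c 0).val < k := ZMod.val_lt _
      rcases Nat.lt_or_ge (c v - c 0).val d with h | h
      · left
        exact ⟨(c v - c 0).val, h, by rw [hr]; ring⟩
      · right
        refine ⟨(c v - c 0).val + (d - 1) - k, by omega, ?_⟩
        have h1 : (((c v - c 0).val + (d - 1) - k : ℕ) : ZMod k) =
            (c v - c 0) + ((d - 1 : ℕ) : ZMod k) := by
          rw [Nat.cast_sub (by omega), Nat.cast_add, hr, ZMod.natCast_self, sub_zero]
        rw [h1]
        ring
    have t1 := fun (S : Set (Fin 6)) (hS : IsAcyclic D S) (h0 : (0 : Fin 6) ∈ S)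
      (h1 : (1 : Fin 6) ∈ S) (h3 : (3 : Fin 6) ∈ S) =>
      not_acyclic_triangle hS h0 h1 h3 (by decide) (by decide) (by decide)
    have t2 := fun (S : Set (Fin 6)) (hS : IsAcyclic D S) (h0 : (0 : Fin 6) ∈ S)
      (h1 : (1 : Fin 6) ∈ S) (h4 : (4 : Fin 6) ∈ S) =>
      not_acyclic_triangle hS h0 h1 h4 (by decide) (by decide) (by decide)
    have t3 := fun (S : Set (Fin 6)) (hS : IsAcyclic D S) (h0 : (0 : Fin 6) ∈ S)
      (h2 : (2 : Fin 6) ∈ S) (h4 : (4 : Fin 6) ∈ S) =>
      not_acyclic_triangle hS h0 h2 h4 (by decide) (by decide) (by decide)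
    have t4 := fun (S : Set (Fin 6)) (hS : IsAcyclic D S) (h0 : (0 : Fin 6) ∈ S)
      (h2 : (2 : Fin 6) ∈ S) (h5 : (5 : Fin 6) ∈ S) =>
      not_acyclic_triangle hS h0 h2 h5 (by decide) (by decide) (by decide)
    have t5 := fun (S : Set (Fin 6)) (hS : IsAcyclic D S) (h3 : (3 : Fin 6) ∈ S)
      (h5 : (5 : Fin 6) ∈ S) (h4 : (4 : Fin 6) ∈ S) =>
      not_acyclic_triangle hS h3 h5 h4 (by decide) (by decide) (by decide)
    have a1 := t1 A hcA hA0
    have a2 := t2 A hcA hA0
    have a3 := t3 A hcA hA0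
    have a4 := t4 A hcA hA0
    have a5 := t5 A hcA
    have b1 := t1 B hcB hB0
    have b2 := t2 B hcB hB0
    have b3 := t3 B hcB hB0
    have b4 := t4 B hcB hB0
    have b5 := t5 B hcB
    have o1 := hAB 1
    have o2 := hAB 2
    have o3 := hAB 3
    have o4 := hAB 4
    have o5 := hAB 5
    by_cases h1 : (1 : Fin 6) ∈ A
    · have h3 := o3.resolve_left (a1 h1)
      have h4 := o4.resolve_left (a2 h1)
      have h2 := o2.resolve_right (fun h => b3 h h4)
      have h5 := o5.resolve_left (a4 h2)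
      exact b5 h3 h5 h4
    · have h1' := o1.resolve_left h1
      have h3 := o3.resolve_right (b1 h1')
      have h4 := o4.resolve_right (b2 h1')
      have h2 := o2.resolve_left (fun h => a3 h h4)
      have h5 := o5.resolve_right (b4 h2)
      exact a5 h3 h5 h4

end Pool.Agent.Results.MP_45899d_co.SixVertices
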